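import Pool.Agent.K1H88.DP.Stm

set_option autoImplicit false
set_option linter.unusedSectionVars false

/-! # Pieces S_FIN and S_TRANS of project DP (for helper88) -/

namespace Pool.Agent.K1H10.DP

open Pool.Agent.K1H88.DP Module NumberField Polynomial

theorem norm_int_le (p : Nat.Primes) (a : ℤ) : ‖(a : Kp p)‖ ≤ 1 := by
  have h1 : ((a : ℚ_[(p : ℕ)]) : Kp p) = (a : Kp p) := by
    exact map_intCast (algebraMap ℚ_[(p : ℕ)] (PadicAlgCl (p : ℕ))) a
  rw [← h1, PadicAlgCl.norm_extends]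
  exact Padic.norm_int_le_one a

theorem norm_int_eq (p : Nat.Primes) (a : ℤ) (h : ¬ ((p : ℕ) : ℤ) ∣ a) : ‖(a : Kp p)‖ = 1 := by
  have h1 : ((a : ℚ_[(p : ℕ)]) : Kp p) = (a : Kp p) := by
    exact map_intCast (algebraMap ℚ_[(p : ℕ)] (PadicAlgCl (p : ℕ))) a
  rw [← h1, PadicAlgCl.norm_extends]
  refine le_antisymm (Padic.norm_int_le_one a) (not_lt.1 fun h2 => h ?_)
  exact Padic.norm_intCast_lt_one_iff.1 h2

theorem int_norm_le {p : Nat.Primes} {z : Kp p} (hz : IsIntegral ℤ z) : ‖z‖ ≤ 1 := by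
  obtain ⟨P, hP, hev⟩ := hz
  by_contra h
  rw [not_le] at h
  set n := P.natDegree with hn
  rw [eval₂_eq_sum_range, Finset.sum_range_succ, ← hn] at hev
  have h1 : P.coeff n = 1 := hP.coeff_natDegree
  rw [h1, map_one, one_mul] at hev
  have h2 : z ^ n = -∑ i ∈ Finset.range n, (algebraMap ℤ (Kp p)) (P.coeff i) * z ^ i := by
    linear_combination hev
  rcases Nat.eq_zero_or_pos n with h0 | h0
  · rw [h0] at h2
    simp at h2
  · have h3 : ‖z ^ n‖ ≤ ‖z‖ ^ (n - 1) := by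
      rw [h2, norm_neg]
      refine IsUltrametricDist.norm_sum_le_of_forall_le_of_nonneg (by positivity) fun i hi => ?_
      rw [norm_mul, norm_pow]
      have h4 := norm_int_le p (P.coeff i)
      have h5 : ‖z‖ ^ i ≤ ‖z‖ ^ (n - 1) := by
        refine pow_le_pow_right₀ h.le ?_
        have := Finset.mem_range.1 hi
        omega
      calc ‖(algebraMap ℤ (Kp p)) (P.coeff i)‖ * ‖z‖ ^ i ≤ 1 * ‖z‖ ^ (n - 1) :=
            mul_le_mul h4 h5 (by positivity) zero_le_one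
        _ = _ := one_mul _
    rw [norm_pow] at h3
    have h4 : ‖z‖ ^ (n - 1) < ‖z‖ ^ n := pow_lt_pow_right₀ h (by omega)
    exact absurd h3 (not_le.2 h4)

theorem le_one_of {F : Type} [Field F] {a : F} {l : ℤ} (h : IsIntegral ℤ (l • a))
    {p : Nat.Primes} (hp : ¬ ((p : ℕ) : ℤ) ∣ l) (σ : F →+* Kp p) : ‖σ a‖ ≤ 1 := by
  have h1 : IsIntegral ℤ (σ (l • a)) := h.map σ.toIntAlgHom
  have h2 := int_norm_le h1
  rw [zsmul_eq_mul, map_mul, map_intCast, norm_mul, norm_int_eq p l hp, one_mul] at h2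
  exact h2

theorem fin_gen (F : Type) [Field F] [CharZero F] (a : F) (ha : IsAlgebraic ℤ a) (h0 : a ≠ 0) :
    {p : Nat.Primes | ∃ σ : F →+* Kp p, ‖σ a‖ ≠ 1}.Finite := by
  obtain ⟨l, hl, h1⟩ := ha.exists_integral_multiple
  obtain ⟨l', hl', h2⟩ := (IsAlgebraic.inv ha).exists_integral_multiple
  have hfin : {p : Nat.Primes | ((p : ℕ) : ℤ) ∣ l * l'}.Finite := by
    have h3 : {q : ℕ | q ∣ (l * l').natAbs}.Finite :=
      Set.Finite.subset (Set.finite_Iic (l * l').natAbs) fun q hq =>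
        Nat.le_of_dvd (Int.natAbs_pos.2 (mul_ne_zero hl hl')) hq
    refine Set.Finite.of_finite_image (f := fun p : Nat.Primes => (p : ℕ)) (h3.subset ?_)
      (fun p _ q _ h => Subtype.ext h)
    rintro q ⟨p, hp, rfl⟩
    exact Int.natCast_dvd.1 hp
  refine hfin.subset ?_
  rintro p ⟨σ, hσ⟩
  by_contra hp
  rw [Set.mem_ofPred_eq] at hp
  have h3 : ¬ ((p : ℕ) : ℤ) ∣ l := fun h => hp (dvd_mul_of_dvd_left h _)
  have h4 : ¬ ((p : ℕ) : ℤ) ∣ l' := fun h => hp (dvd_mul_of_dvd_right h _)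
  have h5 := le_one_of h1 h3 σ
  have h6 := le_one_of h2 h4 σ
  rw [map_inv₀, norm_inv] at h6
  have h7 : 0 < ‖σ a‖ := norm_pos_iff.2 ((map_ne_zero σ).2 h0)
  have h8 : 1 ≤ ‖σ a‖ := (inv_le_one₀ h7).1 h6
  exact hσ (le_antisymm h5 h8)

theorem t_FIN : S_FIN := by
  intro F _ _ a ha
  have h1 : IsAlgebraic ℚ a := Algebra.IsAlgebraic.isAlgebraic a
  have h2 : IsAlgebraic ℤ a := (IsFractionRing.isAlgebraic_iff ℤ ℚ F).2 h1
  exact fin_gen F a h2 ha

section

variable {ι : Type} [Fintype ι] {E : ι → Type} [∀ k, Field (E k)] [∀ k, NumberField (E k)]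

/-- the algebraic numbers -/
abbrev Q' : Type := AlgebraicClosure ℚ

instance algQ : Algebra.IsAlgebraic ℚ Q' := by
  have h := AlgebraicClosure.isAlgebraic ℚ
  have e : (inferInstance : Algebra ℚ Q') = (AlgebraicClosure.instAlgebra ℚ) :=
    Subsingleton.elim _ _
  rw [← e] at h
  exact h

/-- the determinant over the algebraic numbers -/
noncomputable def plQ (x y : ∀ k, E k) (i j : Emb E Q') : Q' :=
  i.2 (x i.1) * j.2 (y j.1) - j.2 (x j.1) * i.2 (y i.1)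

/-- push forward of embeddings -/
noncomputable def pushE {K : Type} [Field K] (τ : Q' →+* K) (i : Emb E Q') : Emb E K := ⟨i.1, τ.comp i.2⟩

theorem pushE_inj {K : Type} [Field K] (τ : Q' →+* K) :
    Function.Injective (pushE (E := E) τ) := by
  rintro ⟨k, σ⟩ ⟨k', σ'⟩ h
  unfold pushE at h
  rw [Sigma.mk.injEq] at h
  obtain ⟨rfl, h2⟩ := h
  have h3 := eq_of_heq h2
  congr 1
  ext a
  exact τ.injective (congrArg (fun φ : E k →+* K => φ a) h3)

theorem pushE_surj {K : Type} [Field K] [CharZero K] [IsAlgClosed K] (τ : Q' →+* K) :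
    Function.Surjective (pushE (E := E) τ) := by
  rintro ⟨k, σ⟩
  have h1 : Function.Injective (fun φ : E k →+* Q' => τ.comp φ) := by
    intro φ ψ h
    ext a
    exact τ.injective (congrArg (fun φ : E k →+* K => φ a) h)
  have h2 : Fintype.card (E k →+* Q') = Fintype.card (E k →+* K) := by
    rw [NumberField.Embeddings.card, NumberField.Embeddings.card]
  obtain ⟨φ, hφ⟩ := ((Fintype.bijective_iff_injective_and_card _).2 ⟨h1, h2⟩).2 σ
  exact ⟨⟨k, φ⟩, by unfold pushE; rw [← hφ]⟩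

theorem pl_push {K : Type} [NormedField K] (τ : Q' →+* K) (x y : ∀ k, E k) (i j : Emb E Q') :
    pl E x y (pushE τ i) (pushE τ j) = τ (plQ x y i j) := by
  unfold pl plQ pushE
  rw [map_sub, map_mul, map_mul]
  rfl

theorem plQ_ne {x y : ∀ k, E k} (h : Distinct E x y) {i j : Emb E Q'} (hij : i ≠ j) :
    plQ x y i j ≠ 0 := by
  intro h0
  have h1 := h (pushE (IsAlgClosed.lift : Q' →ₐ[ℚ] ℂ).toRingHom i)
    (pushE (IsAlgClosed.lift : Q' →ₐ[ℚ] ℂ).toRingHom j) (fun h2 => hij (pushE_inj _ h2))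
  rw [pl_push, h0, map_zero] at h1
  exact h1 rfl

end

theorem t_TRANS : S_TRANS := by
  classical
  intro ι _ E _ _ x y hxy
  have hτ : ∀ p : Nat.Primes, Nonempty (Q' →+* Kp p) := fun p =>
    ⟨(IsAlgClosed.lift : Q' →ₐ[ℚ] Kp p).toRingHom⟩
  constructor
  · intro p i j hij
    obtain ⟨τ⟩ := hτ p
    obtain ⟨i', rfl⟩ := pushE_surj (E := E) τ i
    obtain ⟨j', rfl⟩ := pushE_surj (E := E) τ j
    rw [pl_push]
    exact (map_ne_zero τ).2 (plQ_ne hxy fun h => hij (by rw [h]))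
  · have hfin : (⋃ q ∈ {q : Emb E Q' × Emb E Q' | q.1 ≠ q.2},
        {p : Nat.Primes | ∃ σ : Q' →+* Kp p, ‖σ (plQ x y q.1 q.2)‖ ≠ 1}).Finite := by
      refine Set.Finite.biUnion (Set.toFinite _) fun q hq => ?_
      refine fin_gen Q' _ ?_ (plQ_ne hxy hq)
      exact (IsFractionRing.isAlgebraic_iff ℤ ℚ Q').2 (Algebra.IsAlgebraic.isAlgebraic _)
    refine hfin.subset ?_
    rintro p ⟨i, j, hij, hp⟩
    obtain ⟨τ⟩ := hτ p
    obtain ⟨i', rfl⟩ := pushE_surj (E := E) τ i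
    obtain ⟨j', rfl⟩ := pushE_surj (E := E) τ j
    rw [pl_push] at hp
    rw [Set.mem_iUnion₂]
    exact ⟨(i', j'), fun h => hij (by rw [show i' = j' from h]), τ, hp⟩

end Pool.Agent.K1H10.DP
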